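import Pool.Agent.V1121.PF.IterGap

set_option autoImplicit false
open scoped Pointwise

namespace Pool.Agent.Results.MP_86f7a7_co.IteratedSumsets

/-- The conclusion of the polynomial Freiman-Ruzsa conjecture in torsion-free groups, with a proper
progression `P` of logarithmic rank, for all finite sets `A` which are commensurable (with a factor
`M`) with a set `B` whose `n`-fold sumset is small: `|n B| ≤ L |B|` for some `n ≥ 2` with
`log (2 L) ≤ n ^ k`. -/
theorem result {Z : Type*} [AddCommGroup Z] [DecidableEq Z]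
    (htf : ∀ (n : ℕ) (x : Z), n ≠ 0 → n • x = 0 → x = 0) (k n : ℕ) (hk : 1 ≤ k) (hn : 2 ≤ n)
    (L M : ℝ) (A B : Finset Z) (hA : A.Nonempty)
    (hL : (((Fintype.piFinset fun _ : Fin n => B).image fun f => ∑ i, f i).card : ℝ) ≤
      L * (B.card : ℝ))
    (hkn : Real.log (2 * L) ≤ (n : ℝ) ^ k)
    (hBM : (B.card : ℝ) ≤ M * (A.card : ℝ))
    (hAB : (A.card : ℝ) ≤ M * ((A ∩ B).card : ℝ)) :
    ∃ (d : ℕ) (a : Z) (v : Fin d → Z) (N : Fin d → ℕ) (P : Finset Z),
      (d : ℝ) ≤ 420 * (1 + Real.log (2 * L) / Real.log n) ∧ (∀ i, 1 ≤ N i) ∧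
      (∀ x, x ∈ P ↔ ∃ c : Fin d → ℕ, (∀ i, c i < N i) ∧ x = a + ∑ i, c i • v i) ∧
      P.card = ∏ i, N i ∧
      (P.card : ℝ) ≤ M * (A.card : ℝ) ∧
      (A.card : ℝ) ≤ M * (2 * L) ^ (113000 * k) * ((A ∩ P).card : ℝ) := by
  classical
  have hApos : (0 : ℝ) < A.card := by exact_mod_cast hA.card_pos
  have hABne : (A ∩ B).Nonempty := by
    rw [Finset.nonempty_iff_ne_empty]
    intro h
    rw [h] at hAB
    simp only [Finset.card_empty, Nat.cast_zero, mul_zero] at hAB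
    linarith
  have hABpos : (0 : ℝ) < (A ∩ B).card := by exact_mod_cast hABne.card_pos
  have hM : 0 < M := by
    by_contra h
    push Not at h
    nlinarith
  have hB : B.Nonempty := hABne.mono Finset.inter_subset_right
  obtain ⟨d, v, N, T, hd, hN, hprop, hvol, hT, hcov⟩ :=
    V1121.PF.iterated_gap' htf hk hn hB hL hkn
  have hcov' : ∀ a ∈ A ∩ B, ∃ t ∈ T, ∃ c : Fin d → ℕ, (∀ i, c i < N i) ∧
      a = t + ∑ i, c i • v i := fun a ha => hcov a (Finset.mem_of_mem_inter_right ha)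
  obtain ⟨t, ht, hcard⟩ := H112.cover_pigeonhole hABne
    (fun t a => ∃ c : Fin d → ℕ, (∀ i, c i < N i) ∧ a = t + ∑ i, c i • v i) hcov'
  have hTpos : (0 : ℝ) < T.card := by
    exact_mod_cast Finset.card_pos.2 ⟨t, ht⟩
  have hpos : (0 : ℝ) < (2 * L) ^ (113000 * k) := lt_of_lt_of_le hTpos hT
  set P : Finset Z := (Fintype.piFinset fun i => Finset.range (N i)).image
    fun c => t + ∑ i, c i • v i with hP
  have hmem : ∀ x, x ∈ P ↔ ∃ c : Fin d → ℕ, (∀ i, c i < N i) ∧ x = t + ∑ i, c i • v i := by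
    intro x
    simp only [hP, Finset.mem_image, Fintype.mem_piFinset, Finset.mem_range]
    constructor
    · rintro ⟨c, hc, rfl⟩
      exact ⟨c, hc, rfl⟩
    · rintro ⟨c, hc, rfl⟩
      exact ⟨c, hc, rfl⟩
  have hPc : P.card = ∏ i, N i := by
    rw [hP, Finset.card_image_of_injOn]
    · simp
    · intro c hc c' hc' h
      simp only [Finset.mem_coe, Fintype.mem_piFinset, Finset.mem_range] at hc hc'
      exact hprop c c' hc hc' (add_left_cancel h)
  refine ⟨d, t, v, N, P, hd, hN, hmem, hPc, ?_, ?_⟩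
  · rw [hPc]
    refine le_trans ?_ hBM
    exact_mod_cast hvol
  · have h1 : ((A ∩ B).card : ℝ) ≤ T.card * ((A ∩ B).filter fun a =>
        ∃ c : Fin d → ℕ, (∀ i, c i < N i) ∧ a = t + ∑ i, c i • v i).card := by
      exact_mod_cast hcard
    have h2 : (((A ∩ B).filter fun a =>
        ∃ c : Fin d → ℕ, (∀ i, c i < N i) ∧ a = t + ∑ i, c i • v i).card : ℝ) ≤
        ((A ∩ P).card : ℝ) := by
      refine Nat.cast_le.2 (Finset.card_le_card ?_)
      intro x hx
      rw [Finset.mem_filter] at hx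
      exact Finset.mem_inter.2 ⟨(Finset.mem_inter.1 hx.1).1, (hmem x).2 hx.2⟩
    have h3 : ((A ∩ B).card : ℝ) ≤ (2 * L) ^ (113000 * k) * ((A ∩ P).card : ℝ) :=
      h1.trans (mul_le_mul hT h2 (Nat.cast_nonneg _) hpos.le)
    calc (A.card : ℝ) ≤ M * ((A ∩ B).card : ℝ) := hAB
      _ ≤ M * ((2 * L) ^ (113000 * k) * ((A ∩ P).card : ℝ)) :=
        mul_le_mul_of_nonneg_left h3 hM.le
      _ = M * (2 * L) ^ (113000 * k) * ((A ∩ P).card : ℝ) := by ring

end Pool.Agent.Results.MP_86f7a7_co.IteratedSumsets
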